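import Pool.Agent.Helper29_TDG.Stmts
import Pool.Agent.Helper53_TDG.Comp

/-! # Total domination game: `G(R ∪ T)` component by component (module EL2) -/

set_option autoImplicit false

namespace Pool.Agent.TDG.H59

open Finset Pool.Agent.TDG Helper77.TDG

theorem el2 : EL2Stmt := by
  intro V X _ _ _ N Hv U R T _ hR hT
  have hRU : R ⊆ U := hR.trans sdiff_subset
  have hTU : T ⊆ U := hT.trans sdiff_subset
  have h1 : U \ (R ∪ T) = (U \ R) \ T := by
    ext x; simp only [mem_sdiff, mem_union]; tauto
  have h2 : (T \ R).card = ∑ K ∈ comps N (U \ R), (T ∩ K).card := by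
    have h3 : T \ R = (comps N (U \ R)).biUnion fun K => T ∩ K := by
      ext x
      rw [mem_biUnion, mem_sdiff]
      constructor
      · rintro ⟨hx, hxR⟩
        obtain ⟨K, hK, hxK⟩ := exists_comp (N := N) (mem_sdiff.2 ⟨hTU hx, hxR⟩)
        exact ⟨K, hK, mem_inter.2 ⟨hx, hxK⟩⟩
      · rintro ⟨K, hK, hx⟩
        rw [mem_inter] at hx
        exact ⟨hx.1, (mem_sdiff.1 (comps_subset hK hx.2)).2⟩
    rw [h3, card_biUnion]
    intro K hK L hL hKL
    have := comps_disjoint hK hL hKL
    exact this.mono inter_subset_right inter_subset_right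
  have h4 : (R ∪ T).card = R.card + (T \ R).card := by
    rw [← union_sdiff_self_eq_union, card_union_of_disjoint disjoint_sdiff]
  have h5 : ∀ K, K \ (T ∩ K) = K \ T := by
    intro K
    ext x; simp only [mem_sdiff, mem_inter]; tauto
  unfold GG
  rw [h1, sum_comps_sdiff T, h4, h2, sum_sub_distrib, sum_add_distrib]
  simp only [h5]
  push_cast
  rw [mul_add, mul_sum]
  ring

end Pool.Agent.TDG.H59
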